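import Pool.Agent.MWGI.StmtsC

/-!
# Row KSS of squad MWGI: the bits `s1`, `s2`, `s3`
-/

set_option autoImplicit false

namespace Pool.Agent.MWGI.H4

open Pool.Agent.Helper14_MV Pool.Agent.Helper2_MV Pool.Agent.MVO Pool.Agent.MWL Pool.Agent.MWS
  Pool.Agent.MWH

/-- the substitution of four letters -/
def sb (X Y U V : List ℕ) (i : ℕ) : List ℕ :=
  if i = 0 then X else if i = 1 then Y else if i = 2 then U else V

theorem kss_use1 {η : FIC} (h : RR η [0, 1, 2, 0, 3, 1] [1, 0, 2, 0, 3, 1])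
    (P X Y U V Q : List ℕ) :
    RR η (P ++ (X ++ (Y ++ (U ++ (X ++ (V ++ (Y ++ Q)))))))
      (P ++ (Y ++ (X ++ (U ++ (X ++ (V ++ (Y ++ Q))))))) := by
  have h1 := (RR.refl (β := η) P).append ((h.sub (sb X Y U V)).append (RR.refl Q))
  simpa [sb] using h1

theorem kss_use2 {η : FIC} (h : RR η [0, 2, 0, 1, 3, 1] [0, 2, 1, 0, 3, 1])
    (P X Y U V Q : List ℕ) :
    RR η (P ++ (X ++ (U ++ (X ++ (Y ++ (V ++ (Y ++ Q)))))))
      (P ++ (X ++ (U ++ (Y ++ (X ++ (V ++ (Y ++ Q))))))) := by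
  have h1 := (RR.refl (β := η) P).append ((h.sub (sb X Y U V)).append (RR.refl Q))
  simpa [sb] using h1

theorem kss_use3 {η : FIC} (h : RR η [0, 2, 1, 3, 0, 1] [0, 2, 1, 3, 1, 0])
    (P X Y U V Q : List ℕ) :
    RR η (P ++ (X ++ (U ++ (Y ++ (V ++ (X ++ (Y ++ Q)))))))
      (P ++ (X ++ (U ++ (Y ++ (V ++ (Y ++ (X ++ Q))))))) := by
  have h1 := (RR.refl (β := η) P).append ((h.sub (sb X Y U V)).append (RR.refl Q))
  simpa [sb] using h1

theorem kss_split {a b : ℕ} {l : List ℕ} (h : [a, b].Sublist l) :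
    ∃ l1 l2 l3 : List ℕ, l = l1 ++ a :: (l2 ++ b :: l3) := by
  obtain ⟨r1, r2, rfl, h1, h2⟩ := List.cons_sublist_iff.1 h
  obtain ⟨s, t, rfl⟩ := List.append_of_mem h1
  obtain ⟨u, w, rfl⟩ := List.append_of_mem (List.singleton_sublist.1 h2)
  exact ⟨s, t ++ u, w, by simp⟩

theorem kss : KssStmt := by
  intro n k η H pr sf
  refine ⟨fun h => ?_, fun h => ?_, fun h => ?_⟩
  · have h0 : RR η [0, 1, 2, 0, 3, 1] [1, 0, 2, 0, 3, 1] := h
    refine ⟨?_, ?_⟩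
    · intro x a ha A D hx _
      obtain ⟨t1, t2, rfl⟩ := List.append_of_mem ha
      obtain ⟨D1, D2, rfl⟩ := List.append_of_mem hx
      have h1 := kss_use1 h0 (pr ++ A) [x] [a] D1 (D2 ++ t1) t2
      simpa [MWGR.Wd] using h1
    · rintro a b (hs | hs) A D _
      · obtain ⟨t1, t2, t3, rfl⟩ := kss_split hs
        have h1 := kss_use1 h0 (pr ++ A) [a] [b] (D ++ t1) t2 t3
        simpa [MWGR.Wd] using h1
      · obtain ⟨t1, t2, t3, rfl⟩ := kss_split hs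
        have h1 := (kss_use1 h0 (pr ++ A) [b] [a] (D ++ t1) t2 t3).symm
        simpa [MWGR.Wd] using h1
  · have h0 : RR η [0, 2, 0, 1, 3, 1] [0, 2, 1, 0, 3, 1] := h
    refine ⟨?_, ?_⟩
    · intro x a ha A D hx _
      obtain ⟨t1, t2, rfl⟩ := List.append_of_mem ha
      obtain ⟨A1, A2, rfl⟩ := List.append_of_mem hx
      have h1 := kss_use2 h0 (pr ++ A1) [x] [a] A2 (D ++ t1) t2
      simpa [MWGR.Wd] using h1
    · rintro a b (⟨ha, hb⟩ | ⟨hb, ha⟩) A D _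
      · obtain ⟨p1, p2, rfl⟩ := List.append_of_mem ha
        obtain ⟨t1, t2, rfl⟩ := List.append_of_mem hb
        have h1 := kss_use2 h0 p1 [a] [b] (p2 ++ A) (D ++ t1) t2
        simpa [MWGR.Wd] using h1
      · obtain ⟨p1, p2, rfl⟩ := List.append_of_mem hb
        obtain ⟨t1, t2, rfl⟩ := List.append_of_mem ha
        have h1 := (kss_use2 h0 p1 [b] [a] (p2 ++ A) (D ++ t1) t2).symm
        simpa [MWGR.Wd] using h1
  · have h0 : RR η [0, 2, 1, 3, 0, 1] [0, 2, 1, 3, 1, 0] := h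
    refine ⟨?_, ?_⟩
    · intro x a ha A D hx _
      obtain ⟨p1, p2, rfl⟩ := List.append_of_mem ha
      obtain ⟨A1, A2, rfl⟩ := List.append_of_mem hx
      have h1 := (kss_use3 h0 p1 [a] [x] (p2 ++ A1) A2 (D ++ sf)).symm
      simpa [MWGR.Wd] using h1
    · rintro a b (hs | hs) A D _
      · obtain ⟨p1, p2, p3, rfl⟩ := kss_split hs
        have h1 := kss_use3 h0 p1 [a] [b] p2 (p3 ++ A) (D ++ sf)
        simpa [MWGR.Wd] using h1
      · obtain ⟨p1, p2, p3, rfl⟩ := kss_split hs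
        have h1 := (kss_use3 h0 p1 [b] [a] p2 (p3 ++ A) (D ++ sf)).symm
        simpa [MWGR.Wd] using h1

end Pool.Agent.MWGI.H4
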