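import Pool.Agent.MWGI.StmtsN

/-!
# Row DZA of squad MWGI: the numbers `d` with `Dz`
-/

set_option autoImplicit false

namespace Pool.Agent.MWGI.H4

open Pool.Agent.Helper14_MV Pool.Agent.Helper2_MV Pool.Agent.MVO Pool.Agent.MWL Pool.Agent.MWS
  Pool.Agent.MWH

theorem blk_wz (n k i p : ℕ) (Z : ℕ → Bool) (u v : ℕ) : BlkOk k (wz n i p Z u v) := by
  intro j _ c hc
  have h01 : c = 0 ∨ c = 1 := by
    unfold wz at hc
    split_ifs at hc
    · rw [List.mem_append, List.mem_cons] at hc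
      rcases hc with hc | hc | hc
      · exact Or.inl (List.eq_of_mem_replicate hc)
      · exact Or.inr hc
      · exact Or.inl (List.eq_of_mem_replicate hc)
    · exact Or.inr (List.mem_singleton.1 hc)
    · exact Or.inl (List.eq_of_mem_replicate hc)
    · simp at hc
  unfold NS
  omega

theorem wz_ins (n i p : ℕ) (Z : ℕ → Bool) (u v s t : ℕ) :
    (fun j => (if j = i then X s else []) ++ wz n i p Z u v j ++ (if j = i then X t else [])) =
      wz n i p Z (s + u) (v + t) := by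
  funext j
  unfold wz
  by_cases hj : j = i
  · simp only [hj, if_true]
    have e1 : X (s + u) = X s ++ X u := List.replicate_add s u 0
    have e2 : X (v + t) = X v ++ X t := List.replicate_add v t 0
    rw [e1, e2]
    simp [-List.replicate_append_replicate]
  · simp [hj]

theorem ins_wz {n k i p : ℕ} {η : FIC} {Z : ℕ → Bool} {u v u' v' : ℕ} (s t : ℕ)
    (h : Wz n k i p Z u v u' v' (RR η)) :
    Wz n k i p Z (s + u) (v + t) (s + u') (v' + t) (RR η) := by
  have h1 := rr_ins' η (fun j => if j = i then X s else []) (fun j => if j = i then X t else [])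
    (blk_wz n k i p Z u v) (blk_wz n k i p Z u' v') h
  rw [wz_ins, wz_ins] at h1
  exact h1

theorem dz_congr (wex : WexStmt) {n k i p : ℕ} {η : FIC} {Z : ℕ → Bool} (h : BI n (RR η))
    (hi : i ≤ k) (hp : p ≤ k) (hip : i ≠ p) {d d' : ℕ} (hd : d ≡ d' [MOD n])
    (h1 : Dz n k i p d Z (RR η)) : Dz n k i p d' Z (RR η) := by
  have hpos := h.pos
  have hm : 2 * n + d ≡ 2 * n + d' [MOD n] := Nat.ModEq.add_left _ hd
  have a1 : Wz n k i p Z (2 * n + d') (2 * n) (2 * n + d) (2 * n) (RR η) :=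
    wex n k i p η Z h hi hp hip _ _ _ _ hm.symm (Nat.ModEq.refl _)
      (Or.inr (Or.inl ⟨by omega, by omega⟩)) (Or.inl rfl)
  have a2 : Wz n k i p Z (2 * n) (2 * n + d) (2 * n) (2 * n + d') (RR η) :=
    wex n k i p η Z h hi hp hip _ _ _ _ (Nat.ModEq.refl _) hm (Or.inl rfl)
      (Or.inr (Or.inl ⟨by omega, by omega⟩))
  exact η.trans a1 (η.trans h1 a2)

theorem dz_zero {n k i p : ℕ} {η : FIC} {Z : ℕ → Bool} : Dz n k i p 0 Z (RR η) := by
  unfold Dz Wz
  exact RR.refl _

theorem dz_add {n k i p : ℕ} {η : FIC} {Z : ℕ → Bool} {d d' : ℕ}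
    (h : Dz n k i p d Z (RR η)) (h' : Dz n k i p d' Z (RR η)) :
    Dz n k i p (d + d') Z (RR η) := by
  have h1 : Wz n k i p Z (d' + (2 * n + d)) (2 * n + 0) (d' + 2 * n) (2 * n + d + 0) (RR η) :=
    ins_wz d' 0 h
  have h2 : Wz n k i p Z (0 + (2 * n + d')) (2 * n + d) (0 + 2 * n) (2 * n + d' + d) (RR η) :=
    ins_wz 0 d h'
  have e1 : d' + (2 * n + d) = 2 * n + (d + d') := by omega
  have e2 : d' + 2 * n = 2 * n + d' := by omega
  have e3 : 2 * n + d' + d = 2 * n + (d + d') := by omega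
  rw [e1, e2, Nat.add_zero, Nat.add_zero] at h1
  rw [Nat.zero_add, Nat.zero_add, e3] at h2
  exact η.trans h1 h2

theorem dz_mul {n k i p : ℕ} {η : FIC} {Z : ℕ → Bool} (d r : ℕ)
    (h : Dz n k i p d Z (RR η)) : Dz n k i p (d * r) Z (RR η) := by
  induction r with
  | zero => exact dz_zero
  | succ r ih =>
    rw [Nat.mul_succ]
    exact dz_add ih h

theorem dza (wex : WexStmt) : DzaStmt := by
  classical
  intro n k i p η Z h hik hpk hip
  have hp := h.pos
  have hcg : ∀ {d d' : ℕ}, d ≡ d' [MOD n] → Dz n k i p d Z (RR η) → Dz n k i p d' Z (RR η) :=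
    fun hd h1 => dz_congr wex h hik hpk hip hd h1
  have hn : Dz n k i p n Z (RR η) := by
    refine hcg (d := 0) ?_ dz_zero
    exact (Nat.modEq_zero_iff_dvd.2 (dvd_refl n)).symm
  have hex : ∃ g, 1 ≤ g ∧ Dz n k i p g Z (RR η) := ⟨n, hp, hn⟩
  obtain ⟨g, hg1, hg2, hgm⟩ : ∃ g, 1 ≤ g ∧ Dz n k i p g Z (RR η) ∧
      ∀ r, r < g → ¬ (1 ≤ r ∧ Dz n k i p r Z (RR η)) :=
    ⟨Nat.find hex, (Nat.find_spec hex).1, (Nat.find_spec hex).2, fun r hr => Nat.find_min hex hr⟩
  have hdvd : ∀ d, Dz n k i p d Z (RR η) → g ∣ d := by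
    intro d hd
    have h1 : Dz n k i p (d % g) Z (RR η) := by
      have h2 : Dz n k i p (d + g * ((n - 1) * (d / g))) Z (RR η) := dz_add hd (dz_mul _ _ hg2)
      have e : d + g * ((n - 1) * (d / g)) = d % g + (g * (d / g)) * n := by
        obtain ⟨m, rfl⟩ : ∃ m, n = m + 1 := ⟨n - 1, by omega⟩
        have h3 := Nat.mod_add_div d g
        calc d + g * ((m + 1 - 1) * (d / g)) = (d % g + g * (d / g)) + g * (m * (d / g)) := by
              rw [h3]; simp
          _ = d % g + (g * (d / g)) * (m + 1) := by ring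
      rw [e] at h2
      refine hcg ?_ h2
      show (d % g + (g * (d / g)) * n) % n = d % g % n
      rw [Nat.add_mul_mod_self_right]
    by_contra hnd
    have h2 : 1 ≤ d % g := by
      rcases Nat.eq_zero_or_pos (d % g) with h3 | h3
      · exact absurd (Nat.dvd_of_mod_eq_zero h3) hnd
      · exact h3
    exact hgm _ (Nat.mod_lt _ hg1) ⟨h2, h1⟩
  have hiff : ∀ d, Dz n k i p d Z (RR η) ↔ g ∣ d := by
    intro d
    refine ⟨hdvd d, ?_⟩
    rintro ⟨r, rfl⟩
    exact dz_mul _ _ hg2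
  refine ⟨⟨g, hdvd n hn, hiff⟩, ?_⟩
  intro d hd
  rw [hiff]
  rw [Nat.dvd_iff_prime_pow_dvd_dvd]
  intro q r hprime hk
  rcases Nat.eq_zero_or_pos r with rfl | hkpos
  · simp
  have hpn : q ∣ n := (dvd_pow_self q (by omega)).trans (hk.trans (hdvd n hn))
  have hmem : q ∈ n.primeFactors := by
    rw [Nat.mem_primeFactors]; exact ⟨hprime, hpn, by omega⟩
  have h1 := (hiff _).1 (hd q hmem)
  have h2 : q ^ r ∣ d * (n / q ^ n.factorization q) := hk.trans h1
  have h3 : Nat.Coprime (q ^ r) (n / q ^ n.factorization q) :=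
    Nat.Coprime.pow_left _ (Nat.coprime_ordCompl hprime (by omega))
  exact h3.dvd_of_dvd_mul_right h2

end Pool.Agent.MWGI.H4
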